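import Pool.Agent.H53.NR.Targets

/-!
# MP_6ab439_lc, board `nrt_modules`: module PCT (the partite construction)
-/

set_option autoImplicit false

namespace Pool.Agent.H35.NR

open Pool.Agent.H68.BP Pool.Agent.H58.SF Pool.Agent.H53.GC Pool.Agent.H53.NR

section

variable {V X Q : Type} [LinearOrder Q] {a b : ℕ}

/-- the part of a point -/
def pi0 (S : Set (Fin b → Q)) (x : S × Fin b) : Q := x.1.1 x.2

/-- the type of a point -/
def t0 (S : Set (Fin b → Q)) (tB : Fin b → X) (x : S × Fin b) : X := tB x.2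

open Classical in
/-- the type of a pair -/
noncomputable def d0 (S : Set (Fin b → Q)) (fr : X → X → X) (tB : Fin b → X)
    (dB : Fin b → Fin b → X) (x y : S × Fin b) : X :=
  if x.1 = y.1 then dB x.2 y.2 else fr (tB x.2) (tB y.2)

theorem copy0 {S : Set (Fin b → Q)} {fr : X → X → X} {tA : Fin a → X} {dA : Fin a → Fin a → X}
    {tB : Fin b → X} {dB : Fin b → Fin b → X} (β : S) {f : Fin a → Fin b}
    (hf : OrdCopy tA dA tB dB f) :
    SysCopy (pi0 S) (t0 S tB) (d0 S fr tB dB) (fun i => β.1 (f i)) tA dA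
      (fun i => (β, f i)) where
  part := fun i => rfl
  type := fun i => hf.type i
  pair := fun i j hij => by
    show d0 S fr tB dB (β, f i) (β, f j) = dA i j
    unfold d0
    rw [if_pos rfl]
    exact hf.pair i j hij

theorem ordOK_copy {c : V → V → X} {fr : X → X → X} {M : ℕ} {tA : Fin a → X}
    {dA : Fin a → Fin a → X} {tB : Fin b → X} {dB : Fin b → Fin b → X} {f : Fin a → Fin b}
    (hf : OrdCopy tA dA tB dB f) (h : OrdOK c fr M tB dB) : OrdOK c fr M tA dA := by
  intro m s hm hs hfree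
  obtain ⟨v, hv1, hv2⟩ := h m (fun i => f (s i)) hm (fun i j hij => hf.mono (hs hij))
    (fun i j hij => by
      rw [hf.pair _ _ (hs hij), hf.type, hf.type]
      exact hfree i j hij)
  refine ⟨v, fun i => (hv1 i).trans (hf.type _), fun i j hij => ?_⟩
  exact (hv2 i j hij).trans (hf.pair _ _ (hs hij))

theorem sysOK0 {c : V → V → X} {fr : X → X → X} {M : ℕ} {tB : Fin b → X}
    {dB : Fin b → Fin b → X} {S : Set (Fin b → Q)} (hS : ∀ β ∈ S, StrictMono β)
    {tQ : Q → X} {dQ : Q → Q → X} (h1 : ∀ β ∈ S, ∀ i, tB i = tQ (β i))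
    (h2 : ∀ β ∈ S, ∀ i j, i < j → dB i j = dQ (β i) (β j)) (h3 : OrdOK c fr M tB dB) :
    SysOK c fr M tQ dQ (pi0 S) (t0 S tB) (d0 S fr tB dB) where
  type := fun x => h1 _ x.1.2 _
  pair := fun x y hxy => by
    unfold d0
    by_cases hb : x.1 = y.1
    · left
      rw [if_pos hb]
      have hxy' : x.1.1 x.2 < x.1.1 y.2 := by
        have h : x.1.1 x.2 < y.1.1 y.2 := hxy
        rw [← hb] at h
        exact h
      have hlt : x.2 < y.2 := (hS _ x.1.2).lt_iff_lt.1 hxy'
      rw [h2 _ x.1.2 _ _ hlt]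
      show dQ (x.1.1 x.2) (x.1.1 y.2) = dQ (x.1.1 x.2) (y.1.1 y.2)
      rw [hb]
    · right
      rw [if_neg hb]
      rfl
  real := fun m s hm hs hfree => by
    rcases Nat.eq_zero_or_pos m with rfl | hpos
    · exact ⟨fun i => i.elim0, fun i => i.elim0, fun i => i.elim0⟩
    · have hsame : ∀ i j, i < j → (s i).1 = (s j).1 := by
        intro i j hij
        by_contra hne
        refine hfree i j hij ?_
        unfold d0
        rw [if_neg hne]
        rfl
      have hall : ∀ i j, (s i).1 = (s j).1 := by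
        intro i j
        rcases lt_trichotomy i j with h | h | h
        · exact hsame i j h
        · rw [h]
        · exact (hsame j i h).symm
      have hd : ∀ i j, d0 S fr tB dB (s i) (s j) = dB (s i).2 (s j).2 := by
        intro i j
        unfold d0
        rw [if_pos (hall i j)]
      have hmono : StrictMono (fun i => (s i).2) := by
        intro i j hij
        have h : (s i).1.1 (s i).2 < (s j).1.1 (s j).2 := hs hij
        rw [← hall i j] at h
        exact (hS _ (s i).1.2).lt_iff_lt.1 h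
      obtain ⟨v, hv1, hv2⟩ := h3 m (fun i => (s i).2) hm hmono (fun i j hij => by
        rw [← hd i j]
        exact hfree i j hij)
      exact ⟨v, hv1, fun i j hij => (hv2 i j hij).trans (hd i j).symm⟩

end

theorem pf_PCT (h : T_ITR) : T_PCT := by
  classical
  intro V X Q κ _ _ _ _ c fr M a b tA dA tB dB S hS harrow
  -- the list of the maps
  obtain ⟨l, hl⟩ : ∃ l : List (Fin a → Q), ∀ α, α ∈ l ↔
      ∃ β ∈ S, ∃ f : Fin a → Fin b, OrdCopy tA dA tB dB f ∧ α = fun i => β (f i) := by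
    have hfin : Set.Finite {α : Fin a → Q | ∃ β ∈ S, ∃ f : Fin a → Fin b,
        OrdCopy tA dA tB dB f ∧ α = fun i => β (f i)} := Set.toFinite _
    refine ⟨hfin.toFinset.toList, fun α => ?_⟩
    rw [Finset.mem_toList, Set.Finite.mem_toFinset]
    exact Iff.rfl
  have hlm : ∀ α ∈ l, StrictMono α := by
    intro α hα
    obtain ⟨β, hβ, f, hf, rfl⟩ := (hl α).1 hα
    exact fun i j hij => hS β hβ (hf.mono hij)
  obtain ⟨P', hP', π', t', d', hc, hok⟩ := h V X Q κ c fr M a tA dA l hlm (S × Fin b)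
    (pi0 S) (t0 S tB) (d0 S fr tB dB)
  refine ⟨P', hP', π', t', d', ?_, ?_⟩
  · intro χ
    obtain ⟨φ0, hφ0, hhom⟩ := hc χ
    obtain ⟨k0⟩ := (inferInstance : Nonempty κ)
    obtain ⟨χ', hχ'⟩ : ∃ χ' : (Fin a → Q) → κ, ∀ α e, α ∈ l →
        SysCopy (pi0 S) (t0 S tB) (d0 S fr tB dB) α tA dA e → χ' α = χ (fun i => φ0 (e i)) := by
      refine ⟨fun α => if hα : ∃ e, SysCopy (pi0 S) (t0 S tB) (d0 S fr tB dB) α tA dA e then
        χ (fun i => φ0 (hα.choose i)) else k0, fun α e hαl he => ?_⟩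
      have hα : ∃ e, SysCopy (pi0 S) (t0 S tB) (d0 S fr tB dB) α tA dA e := ⟨e, he⟩
      show (if hα : ∃ e, SysCopy (pi0 S) (t0 S tB) (d0 S fr tB dB) α tA dA e then
        χ (fun i => φ0 (hα.choose i)) else k0) = _
      rw [dif_pos hα]
      exact hhom α hαl _ _ hα.choose_spec he
    obtain ⟨β, hβ, hmono⟩ := harrow χ'
    refine ⟨fun i => φ0 (⟨β, hβ⟩, i), ?_, ?_, ?_, ?_⟩
    · intro i j hij
      show π' (φ0 _) < π' (φ0 _)
      rw [hφ0.part, hφ0.part]
      exact hS β hβ hij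
    · intro i
      exact hφ0.type _
    · intro i j hij
      show d' (φ0 _) (φ0 _) = _
      rw [hφ0.pair ((⟨β, hβ⟩ : S), i) ((⟨β, hβ⟩ : S), j) (hS β hβ hij)]
      unfold d0
      rw [if_pos rfl]
    · intro f f' hf hf'
      have key : ∀ g : Fin a → Fin b, OrdCopy tA dA tB dB g →
          χ' (fun i => β (g i)) = χ (fun i => φ0 (⟨β, hβ⟩, g i)) := by
        intro g hg
        exact hχ' _ (fun i => ((⟨β, hβ⟩ : S), g i)) ((hl _).2 ⟨β, hβ, g, hg, rfl⟩)
          (copy0 (⟨β, hβ⟩ : S) hg)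
      show χ (fun i => φ0 (⟨β, hβ⟩, f i)) = χ (fun i => φ0 (⟨β, hβ⟩, f' i))
      rw [← key f hf, ← key f' hf']
      exact hmono f f' hf hf'
  · intro tQ dQ h1 h2 h3
    refine hok tQ dQ ?_ ?_ ?_ (sysOK0 hS h1 h2 h3)
    · intro α hα i
      obtain ⟨β, hβ, f, hf, rfl⟩ := (hl α).1 hα
      rw [← hf.type i]
      exact h1 β hβ _
    · intro α hα i j hij
      obtain ⟨β, hβ, f, hf, rfl⟩ := (hl α).1 hα
      rw [← hf.pair i j hij]
      exact h2 β hβ _ _ (hf.mono hij)
    · intro hne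
      obtain ⟨α, hα⟩ := List.exists_mem_of_ne_nil l hne
      obtain ⟨β, hβ, f, hf, rfl⟩ := (hl α).1 hα
      exact ordOK_copy hf h3

end Pool.Agent.H35.NR
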